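import Pool.Agent.Helper4.Voic.Main

/-!
# MP_85a523_an, question Q1: the answer is no

On every separable infinite-dimensional complex Hilbert space `H` there is an operator `T` whose
self-commutator has rank at most four such that, for every complex Hilbert space `L` and every
bounded operator `S` on `L`, the operator `T ⊕ S` is not normal plus Hilbert-Schmidt.

`T = X + i Y` on `ℓ²(ℤ²)`, where `X`, `Y` are half the adjacency operators of the horizontal and of
the vertical bonds, one vertical bond above every point of the half line `{(j, 0) : 1 ≤ j}` carrying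
the sign `-1`; then `X` and `Y` commute except at one plaquette.
-/

set_option autoImplicit false

namespace Pool.Agent.Results.MP_85a523_an.NoPartner

open scoped InnerProductSpace

universe u v w

section definitions

variable {H : Type u} [NormedAddCommGroup H] [InnerProductSpace ℂ H]
variable {L : Type v} [NormedAddCommGroup L] [InnerProductSpace ℂ L]

/-- `A` is Hilbert-Schmidt: `∑ ‖A bᵢ‖² < ∞` for some Hilbert basis `b`. -/
def IsHilbertSchmidt (A : H →L[ℂ] H) : Prop :=
  ∃ (ι : Type u) (b : HilbertBasis ι ℂ H), Summable fun i => ‖A (b i)‖ ^ 2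

/-- The direct sum `T ⊕ S` of two operators, acting on the Hilbert space direct sum. -/
noncomputable def directSum (T : H →L[ℂ] H) (S : L →L[ℂ] L) :
    WithLp 2 (H × L) →L[ℂ] WithLp 2 (H × L) :=
  ((WithLp.prodContinuousLinearEquiv 2 ℂ H L).symm : H × L →L[ℂ] WithLp 2 (H × L)) ∘L
    (T.prodMap S) ∘L
    ((WithLp.prodContinuousLinearEquiv 2 ℂ H L) : WithLp 2 (H × L) →L[ℂ] H × L)

end definitions

section sums

variable {H : Type u} [NormedAddCommGroup H] [InnerProductSpace ℂ H]
variable {L : Type v} [NormedAddCommGroup L] [InnerProductSpace ℂ L]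

theorem directSum_apply (T : H →L[ℂ] H) (S : L →L[ℂ] L) (z : WithLp 2 (H × L)) :
    directSum T S z = WithLp.toLp 2 (T (WithLp.ofLp z).1, S (WithLp.ofLp z).2) := rfl

theorem star_directSum [CompleteSpace H] [CompleteSpace L] (T : H →L[ℂ] H) (S : L →L[ℂ] L) :
    star (directSum T S) = directSum (star T) (star S) := by
  symm
  rw [show star (directSum T S) = ContinuousLinearMap.adjoint (directSum T S) from rfl,
    ContinuousLinearMap.eq_adjoint_iff]
  intro x y
  rw [directSum_apply, directSum_apply, WithLp.prod_inner_apply, WithLp.prod_inner_apply]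
  simp only [ContinuousLinearMap.star_eq_adjoint, ContinuousLinearMap.adjoint_inner_left]

/-- the inclusion of the first summand -/
noncomputable def inc : H →L[ℂ] WithLp 2 (H × L) :=
  ((WithLp.prodContinuousLinearEquiv 2 ℂ H L).symm : H × L →L[ℂ] WithLp 2 (H × L)) ∘L
    (ContinuousLinearMap.inl ℂ H L)

theorem inc_apply (x : H) : (inc x : WithLp 2 (H × L)) = WithLp.toLp 2 (x, 0) := rfl

theorem directSum_inc (T : H →L[ℂ] H) (S : L →L[ℂ] L) (x : H) :
    directSum T S (inc x) = inc (T x) := by
  rw [directSum_apply, inc_apply, inc_apply, map_zero]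

theorem inner_inc (x y : H) : ⟪(inc x : WithLp 2 (H × L)), inc y⟫_ℂ = ⟪x, y⟫_ℂ := by
  rw [inc_apply, inc_apply, WithLp.prod_inner_apply]
  simp

theorem inc_orthonormal {ι : Type*} {e : ι → H} (he : Orthonormal ℂ e) :
    Orthonormal ℂ (fun i => (inc (e i) : WithLp 2 (H × L))) := by
  classical
  rw [orthonormal_iff_ite] at he ⊢
  intro i j
  rw [inner_inc, he]

end sums

section hs

variable {K : Type w} [NormedAddCommGroup K] [InnerProductSpace ℂ K] [CompleteSpace K]

/-- a Hilbert-Schmidt operator is square summable along every orthonormal family -/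
theorem summable_of_orthonormal {ι κ : Type*} (b : HilbertBasis κ ℂ K) (D : K →L[ℂ] K)
    (h : Summable fun i => ‖D (b i)‖ ^ 2) {v : ι → K} (hv : Orthonormal ℂ v) :
    Summable fun i => ‖D (v i)‖ ^ 2 := by
  obtain ⟨s, c, hs, hc⟩ := Orthonormal.exists_hilbertBasis_extension hv.toSubtypeRange
  have h1 := Pool.Agent.Helper4.Voic.hs_basis b c D h
  let f : ι → s := fun i => ⟨v i, hs ⟨i, rfl⟩⟩
  have hf : Function.Injective f := by
    intro i j hij
    exact hv.linearIndependent.injective (congrArg Subtype.val hij)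
  have h2 := h1.comp_injective hf
  refine h2.congr (fun i => ?_)
  simp only [Function.comp, hc, f]

theorem summable_star {ι κ : Type*} (b : HilbertBasis κ ℂ K) (D : K →L[ℂ] K)
    (h : Summable fun i => ‖D (b i)‖ ^ 2) {v : ι → K} (hv : Orthonormal ℂ v) :
    Summable fun i => ‖(star D) (v i)‖ ^ 2 :=
  summable_of_orthonormal b (star D) (Pool.Agent.Helper4.Voic.hs_adj b b D h) hv

end hs

section basis

variable {H : Type u} [NormedAddCommGroup H] [InnerProductSpace ℂ H] [CompleteSpace H]

theorem countable_basis [TopologicalSpace.SeparableSpace H] {ι : Type*}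
    (b : HilbertBasis ι ℂ H) : Countable ι := by
  apply Pairwise.countable_of_isOpen_disjoint (α := H) (s := fun i => Metric.ball (b i) (1 / 2))
  · intro i j hij
    apply Metric.ball_disjoint_ball
    have h1 : dist (b i) (b j) ^ 2 = 2 := by
      rw [dist_eq_norm, @norm_sub_sq ℂ, b.orthonormal.1 i, b.orthonormal.1 j,
        b.orthonormal.2 hij]
      norm_num
    nlinarith [dist_nonneg (x := b i) (y := b j)]
  · intro i
    exact Metric.isOpen_ball
  · intro i
    exact ⟨b i, Metric.mem_ball_self (by norm_num)⟩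

theorem infinite_basis (hH : ¬ FiniteDimensional ℂ H) {ι : Type*} (b : HilbertBasis ι ℂ H) :
    Infinite ι := by
  by_contra hfin
  rw [not_infinite_iff_finite] at hfin
  have := Fintype.ofFinite ι
  exact hH (b.toOrthonormalBasis.toBasis.finiteDimensional_of_finite)

theorem exists_basis [TopologicalSpace.SeparableSpace H] (hH : ¬ FiniteDimensional ℂ H) :
    Nonempty (HilbertBasis (ℤ × ℤ) ℂ H) := by
  obtain ⟨s, b, _⟩ := exists_hilbertBasis ℂ H
  have h1 : Countable s := countable_basis b
  have h2 : Infinite s := infinite_basis hH b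
  obtain ⟨e⟩ := nonempty_equiv_of_countable (α := ℤ × ℤ) (β := s)
  refine ⟨HilbertBasis.mk (v := fun i => b (e i)) (b.orthonormal.comp _ e.injective) ?_⟩
  have h3 : Set.range (fun i => b (e i)) = Set.range b := by
    ext x
    constructor
    · rintro ⟨i, rfl⟩; exact ⟨_, rfl⟩
    · rintro ⟨i, rfl⟩; exact ⟨e.symm i, by simp⟩
  rw [h3, b.dense_span]

end basis

section operator

open Pool.Agent.Helper4.Voic

variable {H : Type u} [NormedAddCommGroup H] [InnerProductSpace ℂ H] [CompleteSpace H]

/-- conjugation of an operator on `ℓ²(ℤ²)` by the unitary of a Hilbert basis -/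
noncomputable def conj (e : HilbertBasis (ℤ × ℤ) ℂ H) (A : HH →L[ℂ] HH) : H →L[ℂ] H :=
  (e.repr.symm : HH →L[ℂ] H) ∘L A ∘L (e.repr : H →L[ℂ] HH)

theorem conj_apply (e : HilbertBasis (ℤ × ℤ) ℂ H) (A : HH →L[ℂ] HH) (x : H) :
    conj e A x = e.repr.symm (A (e.repr x)) := rfl

theorem repr_basis (e : HilbertBasis (ℤ × ℤ) ℂ H) (p : ℤ × ℤ) : e.repr (e p) = bb p := by
  classical
  rw [e.repr_self]
  exact (bb.repr_symm_single p)

theorem symm_bb (e : HilbertBasis (ℤ × ℤ) ℂ H) (p : ℤ × ℤ) : e.repr.symm (bb p) = e p := by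
  rw [← repr_basis e p, LinearIsometryEquiv.symm_apply_apply]

theorem star_conj (e : HilbertBasis (ℤ × ℤ) ℂ H) (A : HH →L[ℂ] HH) :
    star (conj e A) = conj e (star A) := by
  symm
  rw [show star (conj e A) = ContinuousLinearMap.adjoint (conj e A) from rfl,
    ContinuousLinearMap.eq_adjoint_iff]
  intro x y
  rw [conj_apply, conj_apply, ← e.repr.inner_map_map, ← e.repr.inner_map_map x,
    LinearIsometryEquiv.apply_symm_apply, LinearIsometryEquiv.apply_symm_apply,
    ContinuousLinearMap.star_eq_adjoint, ContinuousLinearMap.adjoint_inner_left]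

theorem conj_mul (e : HilbertBasis (ℤ × ℤ) ℂ H) (A B : HH →L[ℂ] HH) :
    conj e A * conj e B = conj e (A * B) := by
  ext1 x
  rw [mapp, conj_apply, conj_apply, conj_apply, LinearIsometryEquiv.apply_symm_apply, mapp]

theorem conj_sub (e : HilbertBasis (ℤ × ℤ) ℂ H) (A B : HH →L[ℂ] HH) :
    conj e A - conj e B = conj e (A - B) := by
  ext1 x
  rw [sub_apply, conj_apply, conj_apply, conj_apply, sub_apply, map_sub]

theorem selfcomm_conj (e : HilbertBasis (ℤ × ℤ) ℂ H) (p : ℤ × ℤ) (hp : p ∉ F4) :
    (star (conj e T) * conj e T - conj e T * star (conj e T)) (e p) = 0 := by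
  rw [star_conj, conj_mul, conj_mul, conj_sub, conj_apply, repr_basis, selfcomm_apply p hp,
    map_zero]

/-- an operator that vanishes on all basis vectors outside `F4` has rank at most four -/
theorem rank_le (e : HilbertBasis (ℤ × ℤ) ℂ H) (A : H →L[ℂ] H) (hA : ∀ p ∉ F4, A (e p) = 0) :
    Module.rank ℂ (LinearMap.range (A : H →ₗ[ℂ] H)) ≤ 4 := by
  classical
  have h1 : LinearMap.range (A : H →ₗ[ℂ] H) ≤
      Submodule.span ℂ ((F4.image (fun p => A (e p)) : Finset H) : Set H) := by
    rintro _ ⟨x, rfl⟩
    have h2 := e.hasSum_repr x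
    have h3 := h2.mapL A
    have h4 : A x = ∑ p ∈ F4, A (e.repr x p • e p) := by
      rw [← h3.tsum_eq]
      apply tsum_eq_sum
      intro p hp
      rw [map_smul, hA p hp, smul_zero]
    show A x ∈ _
    rw [h4]
    apply Submodule.sum_mem
    intro p hp
    rw [map_smul]
    apply Submodule.smul_mem
    apply Submodule.subset_span
    rw [Finset.mem_coe, Finset.mem_image]
    exact ⟨p, hp, rfl⟩
  refine (Submodule.rank_mono h1).trans ?_
  refine (rank_span_finset_le _).trans ?_
  have h5 : (F4.image (fun p => A (e p))).card ≤ 4 := Finset.card_image_le.trans (by decide)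
  exact_mod_cast h5

theorem no_normal (e : HilbertBasis (ℤ × ℤ) ℂ H) {L : Type v} [NormedAddCommGroup L]
    [InnerProductSpace ℂ L] [CompleteSpace L] (S : L →L[ℂ] L)
    (N : WithLp 2 (H × L) →L[ℂ] WithLp 2 (H × L)) (hN : IsStarNormal N) :
    ¬ IsHilbertSchmidt (directSum (conj e T) S - N) := by
  rintro ⟨ι, b, hb⟩
  let v : ℤ × ℤ → WithLp 2 (H × L) := fun p => inc (e p)
  have hv : Orthonormal ℂ v := inc_orthonormal e.orthonormal
  have eX : ∀ p, Xv v p = inc (e.repr.symm (X (bb p))) := by
    rintro ⟨j, k⟩
    simp only [Xv, v, X_apply, map_smul, map_add, symm_bb]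
  have eY : ∀ p, Yv v p = inc (e.repr.symm (Y (bb p))) := by
    rintro ⟨j, k⟩
    simp only [Yv, v, Y_apply, map_smul, map_add, symm_bb]
  have eT : ∀ p, Xv v p + Complex.I • Yv v p = directSum (conj e T) S (v p) := by
    intro p
    simp only [v]
    rw [directSum_inc, conj_apply, repr_basis, eX, eY, T, add_apply, smul_apply, map_add, map_smul,
      map_add, map_smul]
  have eTs : ∀ p, Xv v p - Complex.I • Yv v p = (star (directSum (conj e T) S)) (v p) := by
    intro p
    simp only [v]
    rw [star_directSum, star_conj, directSum_inc, conj_apply, repr_basis, eX, eY, star_T,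
      sub_apply, smul_apply, map_sub, map_smul, map_sub, map_smul]
  refine core2 N hN.star_comm_self.eq hv ?_ ?_
  · refine (summable_of_orthonormal b _ hb hv).congr (fun p => ?_)
    rw [eT, sub_apply]
  · refine (summable_star b _ hb hv).congr (fun p => ?_)
    rw [eTs, star_sub, sub_apply]

end operator

/-- **The answer to Q1 is no.** On every separable infinite-dimensional complex Hilbert space `H`
there is a bounded operator `T` whose self-commutator `T*T - TT*` has rank at most `4` (so `T` is
almost normal) such that, for every complex Hilbert space `L` and every bounded operator `S` on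
`L`, the operator `T ⊕ S` on `H ⊕ L` differs from every normal operator by an operator that is not
Hilbert-Schmidt. -/
theorem result (H : Type u) [NormedAddCommGroup H] [InnerProductSpace ℂ H] [CompleteSpace H]
    [TopologicalSpace.SeparableSpace H] (hH : ¬ FiniteDimensional ℂ H) :
    ∃ T : H →L[ℂ] H,
      Module.rank ℂ (LinearMap.range ((star T * T - T * star T : H →L[ℂ] H) : H →ₗ[ℂ] H)) ≤ 4 ∧
      ∀ (L : Type v) [NormedAddCommGroup L] [InnerProductSpace ℂ L] [CompleteSpace L]
        (S : L →L[ℂ] L) (N : WithLp 2 (H × L) →L[ℂ] WithLp 2 (H × L)),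
        IsStarNormal N → ¬ IsHilbertSchmidt (directSum T S - N) := by
  obtain ⟨e⟩ := exists_basis hH
  exact ⟨conj e Pool.Agent.Helper4.Voic.T, rank_le e _ (selfcomm_conj e),
    fun L _ _ _ S N hN => no_normal e S N hN⟩

end Pool.Agent.Results.MP_85a523_an.NoPartner
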